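import Pool.Agent.MP_8be872_ag.H59.Coord

/-! The quiver variety of an extremal weight is one point. -/

namespace Pool.Agent.MP_8be872_ag.H59

open Module H38 H86 H56 Matrix

variable {Q : Quiv} {w v : Fin Q.n → ℕ}

theorem mom_mulVec (x : Option (Co Q w v) → ℂ) (k : Fin Q.n) (y : Fin (v k) → ℂ) :
    (Im x k * Jm x k + ∑ j, ∑ a : AQ Q j k,
        epsQ Q j k a • (Xm x j k a * Xm x k j (barQ Q j k a))) *ᵥ y =
      Im x k *ᵥ (Jm x k *ᵥ y) + ∑ j, ∑ a : AQ Q j k,
        epsQ Q j k a • (Xm x j k a *ᵥ (Xm x k j (barQ Q j k a) *ᵥ y)) := by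
  simp only [Matrix.add_mulVec, Matrix.sum_mulVec, Matrix.smul_mulVec, Matrix.mulVec_mulVec]

/-- The representation of a stable point. -/
noncomputable def ofPt (x : Option (Co Q w v) → ℂ) (hz : OnZ Q w v 0 x) (hs : Stable Q w v x) :
    SRep (barQ Q) (epsQ Q) fun k => Fin (w k) → ℂ where
  V k := Fin (v k) → ℂ
  x j k a := (Xm x j k a).mulVecLin
  I k := (Im x k).mulVecLin
  J k := (Jm x k).mulVecLin
  mom k y := by
    have h : (Im x k * Jm x k + ∑ j, ∑ a : AQ Q j k,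
        epsQ Q j k a • (Xm x j k a * Xm x k j (barQ Q j k a))) = 0 := by
      ext p q
      rw [← mom_eval hz.1]
      exact hz.2 _ rfl
    have h' := mom_mulVec x k y
    rw [h, Matrix.zero_mulVec] at h'
    exact h'.symm
  stab := (stable_iff hz.1).1 hs

/-- The point with given matrices. -/
noncomputable def pt (X : ∀ j k, AQ Q j k → Matrix (Fin (v k)) (Fin (v j)) ℂ)
    (I : ∀ k, Matrix (Fin (v k)) (Fin (w k)) ℂ) (J : ∀ k, Matrix (Fin (w k)) (Fin (v k)) ℂ) :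
    Option (Co Q w v) → ℂ
  | some ((some e, s), .inl a, .inl b) =>
      if h : src Q e s = b.1 ∧ src Q e (!s) = a.1 then X b.1 a.1 ⟨(e, s), h⟩ a.2 b.2 else 0
  | some ((none, true), .inl a, .inr b) => blockDiagonal' I a b
  | some ((none, false), .inr a, .inl b) => blockDiagonal' J a b
  | _ => 0

section

variable (X : ∀ j k, AQ Q j k → Matrix (Fin (v k)) (Fin (v j)) ℂ)
  (I : ∀ k, Matrix (Fin (v k)) (Fin (w k)) ℂ) (J : ∀ k, Matrix (Fin (w k)) (Fin (v k)) ℂ)

theorem pt_supp : Supp (pt X I J) := by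
  rintro ⟨⟨_ | e, s⟩, ⟨k, a⟩ | ⟨k, a⟩, ⟨j, b⟩ | ⟨j, b⟩⟩ hc
  · cases s <;> rfl
  · cases s
    · rfl
    · exact blockDiagonal'_apply_ne I a b (by simpa [allowed] using hc)
  · cases s
    · exact blockDiagonal'_apply_ne J a b (by simpa [allowed] using hc)
    · rfl
  · cases s <;> rfl
  · exact dif_neg fun h => hc ((allowed_arr e s _ _).2 h)
  · cases s <;> rfl
  · cases s <;> rfl
  · cases s <;> rfl

theorem Xm_pt (j k : Fin Q.n) (a : AQ Q j k) : Xm (pt X I J) j k a = X j k a := by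
  ext p q
  exact dif_pos a.2

theorem Im_pt (k : Fin Q.n) : Im (pt X I J) k = I k := by
  ext p q
  exact blockDiagonal'_apply_eq I k p q

theorem Jm_pt (k : Fin Q.n) : Jm (pt X I J) k = J k := by
  ext p q
  exact blockDiagonal'_apply_eq J k p q

end

theorem exists_pt (R : SRep (barQ Q) (epsQ Q) fun k => Fin (w k) → ℂ)
    (hd : ∀ k, finrank ℂ (R.V k) = v k) :
    ∃ (x : Option (Co Q w v) → ℂ) (hz : OnZ Q w v 0 x) (hs : Stable Q w v x),
      Nonempty (SHom (ofPt x hz hs) R) := by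
  let e : ∀ k, R.V k ≃ₗ[ℂ] (Fin (v k) → ℂ) := fun k =>
    LinearEquiv.ofFinrankEq _ _ (by rw [hd k]; simp)
  let X : ∀ j k, AQ Q j k → Matrix (Fin (v k)) (Fin (v j)) ℂ := fun j k a =>
    LinearMap.toMatrix' ((e k).toLinearMap ∘ₗ R.x j k a ∘ₗ (e j).symm.toLinearMap)
  let I : ∀ k, Matrix (Fin (v k)) (Fin (w k)) ℂ := fun k =>
    LinearMap.toMatrix' ((e k).toLinearMap ∘ₗ R.I k)
  let J : ∀ k, Matrix (Fin (w k)) (Fin (v k)) ℂ := fun k =>
    LinearMap.toMatrix' (R.J k ∘ₗ (e k).symm.toLinearMap)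
  have hX : ∀ j k a y, Xm (pt X I J) j k a *ᵥ y = e k (R.x j k a ((e j).symm y)) := by
    intro j k a y
    rw [Xm_pt]
    exact LinearMap.toMatrix'_mulVec _ _
  have hI : ∀ k y, Im (pt X I J) k *ᵥ y = e k (R.I k y) := by
    intro k y
    rw [Im_pt]
    exact LinearMap.toMatrix'_mulVec _ _
  have hJ : ∀ k y, Jm (pt X I J) k *ᵥ y = R.J k ((e k).symm y) := by
    intro k y
    rw [Jm_pt]
    exact LinearMap.toMatrix'_mulVec _ _
  refine ⟨pt X I J, ⟨pt_supp X I J, ?_⟩, (stable_iff (pt_supp X I J)).2 ?_, ⟨⟨fun k =>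
    (e k).symm.toLinearMap, ?_, ?_, ?_⟩⟩⟩
  · rintro ⟨⟨k, p⟩, ⟨k', q⟩⟩ hk
    obtain rfl : k = k' := hk
    rw [mom_eval (pt_supp X I J)]
    have h : (Im (pt X I J) k * Jm (pt X I J) k + ∑ j, ∑ a : AQ Q j k, epsQ Q j k a •
        (Xm (pt X I J) j k a * Xm (pt X I J) k j (barQ Q j k a))) = 0 := by
      refine Matrix.toLin'.injective (LinearMap.ext fun y => ?_)
      rw [Matrix.toLin'_apply, mom_mulVec, map_zero, LinearMap.zero_apply]
      have h1 := congrArg (e k) (R.mom k ((e k).symm y))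
      simp only [map_add, map_sum, map_smul, map_zero] at h1
      simp only [hX, hI, hJ, LinearEquiv.symm_apply_apply]
      exact h1
    rw [h]
    rfl
  · intro S h1 h2 k
    have h3 := R.stab (fun k => (S k).comap (e k).toLinearMap)
      (fun k y => by
        have := h1 k y
        rwa [hI] at this)
      (fun j k a y hy => by
        have := h2 j k a _ hy
        rw [hX] at this
        simpa using this) k
    rw [eq_top_iff]
    intro y _
    have h4 : (e k).symm y ∈ (S k).comap (e k).toLinearMap := by rw [h3]; trivial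
    simpa using h4
  · intro j k a y
    change (e k).symm (Xm (pt X I J) j k a *ᵥ y) = _
    rw [hX, LinearEquiv.symm_apply_apply]
    rfl
  · intro k y
    change (e k).symm (Im (pt X I J) k *ᵥ y) = _
    rw [hI, LinearEquiv.symm_apply_apply]
  · intro k y
    exact (hJ k y).symm

theorem conj_of {x x₀ : Option (Co Q w v) → ℂ} (h : Supp x) (h₀ : Supp x₀)
    (G : ∀ k, Matrix (Fin (v k)) (Fin (v k)) ℂ)
    (hX : ∀ j k a, Xm x j k a * G j = G k * Xm x₀ j k a) (hI : ∀ k, Im x k = G k * Im x₀ k)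
    (hJ : ∀ k, Jm x k * G k = Jm x₀ k) (ε : Arr Q) :
    (Matrix.of fun p q => x (some (ε, p, q))) * fromBlocks (blockDiagonal' G) 0 0 1 =
      fromBlocks (blockDiagonal' G) 0 0 1 * Matrix.of fun p q => x₀ (some (ε, p, q)) := by
  have hl : ∀ (p : Bas Q v ⊕ Bas Q w) (j : Fin Q.n) (b : Fin (v j)),
      ((Matrix.of fun p q => x (some (ε, p, q))) *
        fromBlocks (blockDiagonal' G) 0 0 (1 : Matrix (Bas Q w) (Bas Q w) ℂ)) p (.inl ⟨j, b⟩) =
        ∑ b', x (some (ε, p, .inl ⟨j, b'⟩)) * G j b' b := by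
    intro p j b
    simp only [Matrix.mul_apply, Fintype.sum_sum_type, fromBlocks_apply₁₁, fromBlocks_apply₂₁,
      Matrix.zero_apply, mul_zero, Finset.sum_const_zero, add_zero, Matrix.of_apply]
    rw [Fintype.sum_sigma, Finset.sum_eq_single j]
    · simp
    · intro l _ hl
      simp [blockDiagonal'_apply_ne _ _ _ hl]
    · simp
  have hr : ∀ (p : Bas Q v ⊕ Bas Q w) (b : Bas Q w),
      ((Matrix.of fun p q => x (some (ε, p, q))) *
        fromBlocks (blockDiagonal' G) 0 0 (1 : Matrix (Bas Q w) (Bas Q w) ℂ)) p (.inr b) =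
        x (some (ε, p, .inr b)) := by
    intro p b
    simp [Matrix.mul_apply, Fintype.sum_sum_type, Matrix.one_apply]
  have gl : ∀ (q : Bas Q v ⊕ Bas Q w) (k : Fin Q.n) (a : Fin (v k)),
      (fromBlocks (blockDiagonal' G) 0 0 (1 : Matrix (Bas Q w) (Bas Q w) ℂ) *
        Matrix.of fun p q => x₀ (some (ε, p, q))) (.inl ⟨k, a⟩) q =
        ∑ a', G k a a' * x₀ (some (ε, .inl ⟨k, a'⟩, q)) := by
    intro q k a
    simp only [Matrix.mul_apply, Fintype.sum_sum_type, fromBlocks_apply₁₁, fromBlocks_apply₁₂,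
      Matrix.zero_apply, zero_mul, Finset.sum_const_zero, add_zero, Matrix.of_apply]
    rw [Fintype.sum_sigma, Finset.sum_eq_single k]
    · simp
    · intro l _ hl
      simp [blockDiagonal'_apply_ne _ _ _ (Ne.symm hl)]
    · simp
  have gr : ∀ (q : Bas Q v ⊕ Bas Q w) (a : Bas Q w),
      (fromBlocks (blockDiagonal' G) 0 0 (1 : Matrix (Bas Q w) (Bas Q w) ℂ) *
        Matrix.of fun p q => x₀ (some (ε, p, q))) (.inr a) q = x₀ (some (ε, .inr a, q)) := by
    intro q a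
    simp [Matrix.mul_apply, Fintype.sum_sum_type, Matrix.one_apply]
  ext p q
  obtain ⟨_ | e, s⟩ := ε
  · rcases p with ⟨k, a⟩ | ⟨k, a⟩ <;> rcases q with ⟨j, b⟩ | ⟨j, b⟩
    · rw [hl, gl]
      cases s <;> simp [h.i_l, h.j_l, h₀.i_l, h₀.j_l]
    · rw [hr, gl]
      cases s
      · simp [h.j_l, h₀.j_l]
      · by_cases hk : k = j
        · subst hk
          exact congrFun (congrFun (hI k) a) b
        · rw [h.i_ne (a := ⟨k, a⟩) (b := ⟨j, b⟩) hk]
          refine (Finset.sum_eq_zero fun a' _ => ?_).symm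
          rw [h₀.i_ne (a := ⟨k, a'⟩) (b := ⟨j, b⟩) hk, mul_zero]
    · rw [hl, gr]
      cases s
      · by_cases hk : k = j
        · subst hk
          exact congrFun (congrFun (hJ k) a) b
        · rw [h₀.j_ne (a := ⟨k, a⟩) (b := ⟨j, b⟩) hk]
          refine Finset.sum_eq_zero fun b' _ => ?_
          rw [h.j_ne (a := ⟨k, a⟩) (b := ⟨j, b'⟩) hk, zero_mul]
      · simp [h.i_r, h₀.i_r]
    · rw [hr, gr]
      cases s <;> simp [h.i_r, h.j_r, h₀.i_r, h₀.j_r]
  · rcases p with ⟨k, a⟩ | ⟨k, a⟩ <;> rcases q with ⟨j, b⟩ | ⟨j, b⟩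
    · rw [hl, gl]
      by_cases hk : src Q e s = j ∧ src Q e (!s) = k
      · exact congrFun (congrFun (hX j k ⟨(e, s), hk⟩) a) b
      · rw [Finset.sum_eq_zero, Finset.sum_eq_zero]
        · intro a' _
          rw [h₀.arr (a := ⟨k, a'⟩) (b := ⟨j, b⟩) hk, mul_zero]
        · intro b' _
          rw [h.arr (a := ⟨k, a⟩) (b := ⟨j, b'⟩) hk, zero_mul]
    · rw [hr, gl]
      simp [h.arr_r, h₀.arr_r]
    · rw [hl, gr]
      simp [h.arr_l, h₀.arr_l]
    · rw [hr, gr]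
      simp [h.arr_l, h₀.arr_l]

theorem orbit : OrbitStmt := by
  intro Q hQ w v hv
  obtain ⟨R₀, hd, hR₀⟩ := (uniq_up Q w hQ (up_of_orbit Q w hQ hv)).2 v rfl
  obtain ⟨x₀, hz₀, hs₀, ⟨ψ⟩⟩ := exists_pt R₀ hd
  refine ⟨x₀, hz₀, hs₀, fun x hz hs => ?_⟩
  obtain ⟨φ⟩ := hR₀ (ofPt x hz hs) fun k => by
    change finrank ℂ (Fin (v k) → ℂ) = _
    simp
  let χ : SHom (ofPt x₀ hz₀ hs₀) (ofPt x hz hs) :=
    ⟨fun k => φ.f k ∘ₗ ψ.f k, fun j k a y => by simp [ψ.hx, φ.hx], fun k y => by simp [ψ.hI, φ.hI],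
      fun k y => by simp [ψ.hJ, φ.hJ]⟩
  let f : ∀ k, (Fin (v k) → ℂ) →ₗ[ℂ] (Fin (v k) → ℂ) := fun k => χ.f k
  let G : ∀ k, Matrix (Fin (v k)) (Fin (v k)) ℂ := fun k => LinearMap.toMatrix' (f k)
  have hG : ∀ k y, G k *ᵥ y = f k y := fun k y => LinearMap.toMatrix'_mulVec _ _
  have hinv : ∀ k, ∃ G', G k * G' = 1 := by
    intro k
    have hb : Function.Bijective (f k) := χ.bij k rfl
    have hu : IsUnit (G k) := by
      rw [← Matrix.mulVec_surjective_iff_isUnit]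
      intro y
      obtain ⟨z, hz⟩ := hb.2 y
      exact ⟨z, (hG k z).trans hz⟩
    exact hu.exists_right_inv
  choose G' hG' using hinv
  refine ⟨fromBlocks (blockDiagonal' G) 0 0 1, ?_, ?_, ?_, conj_of hz.1 hz₀.1 G ?_ ?_ ?_⟩
  · refine IsUnit.of_mul_eq_one (fromBlocks (blockDiagonal' G') 0 0 1) ?_
    rw [fromBlocks_multiply, ← blockDiagonal'_mul]
    simp only [hG', Matrix.mul_zero, Matrix.zero_mul, add_zero, zero_add, Matrix.mul_one]
    rw [show (fun k => (1 : Matrix (Fin (v k)) (Fin (v k)) ℂ)) = 1 from rfl, blockDiagonal'_one,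
      fromBlocks_one]
  · rintro ⟨k, a⟩ ⟨j, b⟩ hk
    exact blockDiagonal'_apply_ne G a b hk
  · rintro (p | p) b <;> simp [Matrix.one_apply, eq_comm]
  · intro j k a
    refine Matrix.toLin'.injective (LinearMap.ext fun y => ?_)
    rw [Matrix.toLin'_apply, Matrix.toLin'_apply, ← Matrix.mulVec_mulVec, ← Matrix.mulVec_mulVec,
      hG, hG]
    exact (χ.hx j k a y).symm
  · intro k
    refine Matrix.toLin'.injective (LinearMap.ext fun y => ?_)
    rw [Matrix.toLin'_apply, Matrix.toLin'_apply, ← Matrix.mulVec_mulVec, hG]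
    exact (χ.hI k y).symm
  · intro k
    refine Matrix.toLin'.injective (LinearMap.ext fun y => ?_)
    rw [Matrix.toLin'_apply, Matrix.toLin'_apply, ← Matrix.mulVec_mulVec, hG]
    exact χ.hJ k y

end Pool.Agent.MP_8be872_ag.H59
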