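import Pool.Agent.MP_8be872_ag.H59.Ind
import Pool.Agent.MP_8be872_ag.H56.GSpec

/-! Points of the representation space in coordinates and families of matrices. -/

namespace Pool.Agent.MP_8be872_ag.H59

open Module H38 H86 H56 Matrix

variable {Q : Quiv} {w v : Fin Q.n → ℕ}

/-- Only the entries of a representation of the framed double quiver are nonzero. -/
def Supp (x : Option (Co Q w v) → ℂ) : Prop := ∀ c, ¬ allowed Q w v 0 c → x (some c) = 0

theorem allowed_arr (e : Fin Q.ne) (s : Bool) (a b : Bas Q v) :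
    allowed Q w v 0 ((some e, s), .inl a, .inl b) ↔ src Q e s = b.1 ∧ src Q e (!s) = a.1 := by
  cases s <;> simp [allowed, src, and_comm, eq_comm]

section

variable {x : Option (Co Q w v) → ℂ} (h : Supp x)
include h

theorem Supp.arr {e : Fin Q.ne} {s : Bool} {a b : Bas Q v}
    (hab : ¬ (src Q e s = b.1 ∧ src Q e (!s) = a.1)) :
    x (some ((some e, s), .inl a, .inl b)) = 0 :=
  h _ fun h' => hab ((allowed_arr e s a b).1 h')

theorem Supp.arr_r (e : Fin Q.ne) (s : Bool) (p : Bas Q v ⊕ Bas Q w) (b : Bas Q w) :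
    x (some ((some e, s), p, .inr b)) = 0 :=
  h _ (by cases s <;> cases p <;> simp [allowed])

theorem Supp.arr_l (e : Fin Q.ne) (s : Bool) (p : Bas Q v ⊕ Bas Q w) (b : Bas Q w) :
    x (some ((some e, s), .inr b, p)) = 0 :=
  h _ (by cases s <;> cases p <;> simp [allowed])

theorem Supp.i_ne {a : Bas Q v} {b : Bas Q w} (hab : a.1 ≠ b.1) :
    x (some ((none, true), .inl a, .inr b)) = 0 :=
  h _ (by simp [allowed, hab])

theorem Supp.i_l (p : Bas Q v ⊕ Bas Q w) (b : Bas Q v) :
    x (some ((none, true), p, .inl b)) = 0 :=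
  h _ (by cases p <;> simp [allowed])

theorem Supp.i_r (p : Bas Q v ⊕ Bas Q w) (b : Bas Q w) :
    x (some ((none, true), .inr b, p)) = 0 :=
  h _ (by cases p <;> simp [allowed])

theorem Supp.j_ne {a : Bas Q w} {b : Bas Q v} (hab : a.1 ≠ b.1) :
    x (some ((none, false), .inr a, .inl b)) = 0 :=
  h _ (by simp [allowed, hab])

theorem Supp.j_l (p : Bas Q v ⊕ Bas Q w) (b : Bas Q v) :
    x (some ((none, false), .inl b, p)) = 0 :=
  h _ (by cases p <;> simp [allowed])

theorem Supp.j_r (p : Bas Q v ⊕ Bas Q w) (b : Bas Q w) :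
    x (some ((none, false), p, .inr b)) = 0 :=
  h _ (by cases p <;> simp [allowed])

end

/-- The matrix of an arrow. -/
def Xm (x : Option (Co Q w v) → ℂ) (j k : Fin Q.n) (a : AQ Q j k) :
    Matrix (Fin (v k)) (Fin (v j)) ℂ :=
  Matrix.of fun p q => x (some ((some a.1.1, a.1.2), .inl ⟨k, p⟩, .inl ⟨j, q⟩))

/-- The matrix of `W_k → V_k`. -/
def Im (x : Option (Co Q w v) → ℂ) (k : Fin Q.n) : Matrix (Fin (v k)) (Fin (w k)) ℂ :=
  Matrix.of fun p q => x (some ((none, true), .inl ⟨k, p⟩, .inr ⟨k, q⟩))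

/-- The matrix of `V_k → W_k`. -/
def Jm (x : Option (Co Q w v) → ℂ) (k : Fin Q.n) : Matrix (Fin (w k)) (Fin (v k)) ℂ :=
  Matrix.of fun p q => x (some ((none, false), .inr ⟨k, p⟩, .inl ⟨k, q⟩))

theorem sum_sub {α : Type} [Fintype α] (P : α → Prop) [DecidablePred P] (f : α → ℂ)
    (hf : ∀ a, ¬ P a → f a = 0) : ∑ a : Subtype P, f a = ∑ a, f a := by
  rw [← Finset.sum_subtype (Finset.univ.filter P) (by simp) f]
  exact Finset.sum_filter_of_ne fun a _ h => by
    by_contra h'
    exact h (hf a h')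

theorem mom_eval {x : Option (Co Q w v) → ℂ} (h : Supp x) (k : Fin Q.n) (p q : Fin (v k)) :
    MvPolynomial.eval x (mom Q w v (⟨k, p⟩, ⟨k, q⟩)) =
      (Im x k * Jm x k + ∑ j, ∑ a : AQ Q j k,
        epsQ Q j k a • (Xm x j k a * Xm x k j (barQ Q j k a))) p q := by
  simp only [mom, mat, Matrix.sub_apply, Matrix.mul_apply, map_sum, map_sub, map_mul,
    MvPolynomial.eval_X, Fintype.sum_option, Fintype.sum_sum_type, map_add, h.i_l, h.j_l, h.arr_r,
    zero_mul, Finset.sum_const_zero, zero_add, add_zero, sub_zero, Matrix.add_apply,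
    Matrix.sum_apply, Matrix.smul_apply, smul_eq_mul]
  congr 1
  · rw [Fintype.sum_sigma, Finset.sum_eq_single k]
    · rfl
    · intro j _ hj
      refine Finset.sum_eq_zero fun b _ => ?_
      rw [h.i_ne (Ne.symm hj), zero_mul]
    · simp
  · symm
    calc _ = ∑ j, ∑ a : Fin Q.ne × Bool, (bif a.2 then 1 else -1) *
          ∑ b : Fin (v j), x (some ((some a.1, a.2), .inl ⟨k, p⟩, .inl ⟨j, b⟩)) *
            x (some ((some a.1, !a.2), .inl ⟨j, b⟩, .inl ⟨k, q⟩)) := by
          refine Finset.sum_congr rfl fun j _ => ?_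
          refine sum_sub (fun a : Fin Q.ne × Bool => src Q a.1 a.2 = j ∧ src Q a.1 (!a.2) = k)
            (fun a => (bif a.2 then 1 else -1) *
              ∑ b : Fin (v j), x (some ((some a.1, a.2), .inl ⟨k, p⟩, .inl ⟨j, b⟩)) *
                x (some ((some a.1, !a.2), .inl ⟨j, b⟩, .inl ⟨k, q⟩))) fun a ha => ?_
          rw [Finset.sum_eq_zero, mul_zero]
          intro b _
          rw [h.arr ha, zero_mul]
      _ = _ := by
          rw [Finset.sum_comm, Fintype.sum_prod_type]
          refine Finset.sum_congr rfl fun e _ => ?_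
          simp [Fintype.sum_sigma, sub_eq_add_neg]

/-- Restriction to a vertex. -/
noncomputable def res (k : Fin Q.n) : (Bas Q v → ℂ) →ₗ[ℂ] (Fin (v k) → ℂ) :=
  LinearMap.funLeft ℂ ℂ fun p => (⟨k, p⟩ : Bas Q v)

/-- Extension by zero from a vertex. -/
noncomputable def exz (k : Fin Q.n) : (Fin (v k) → ℂ) →ₗ[ℂ] (Bas Q v → ℂ) :=
  LinearMap.pi fun a => LinearMap.proj a.2 ∘ₗ LinearMap.proj a.1 ∘ₗ
    LinearMap.single ℂ (fun k => Fin (v k) → ℂ) k

theorem res_apply (k : Fin Q.n) (y : Bas Q v → ℂ) (p : Fin (v k)) : res k y p = y ⟨k, p⟩ := rfl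

theorem res_exz (l k : Fin Q.n) (y : Fin (v k) → ℂ) :
    res l (exz k y) = (Pi.single k y : ∀ k, Fin (v k) → ℂ) l := rfl

theorem res_ext {y y' : Bas Q v → ℂ} (h : ∀ k, res k y = res k y') : y = y' :=
  funext fun a => congrFun (h a.1) a.2

theorem sum_exz (y : Bas Q v → ℂ) : ∑ k, exz k (res k y) = y := by
  refine res_ext fun l => ?_
  simp only [map_sum, res_exz]
  rw [Finset.sum_eq_single l]
  · simp
  · intro k _ hk
    simp [Ne.symm hk]
  · simp

/-- The full matrix of an arrow. -/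
abbrev Mf (x : Option (Co Q w v) → ℂ) (e : Fin Q.ne) (s : Bool) : Matrix (Bas Q v) (Bas Q v) ℂ :=
  Matrix.of fun a b => x (some ((some e, s), .inl a, .inl b))

theorem res_Mf {x : Option (Co Q w v) → ℂ} (h : Supp x) (j k : Fin Q.n) (a : AQ Q j k)
    (y : Bas Q v → ℂ) : res k (Mf x a.1.1 a.1.2 *ᵥ y) = Xm x j k a *ᵥ res j y := by
  funext p
  simp only [res_apply, Matrix.mulVec, dotProduct, Matrix.of_apply]
  rw [Fintype.sum_sigma, Finset.sum_eq_single j]
  · rfl
  · intro l _ hl
    refine Finset.sum_eq_zero fun b _ => ?_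
    rw [h.arr (fun h' => hl (h'.1.symm.trans a.2.1)), zero_mul]
  · simp

theorem res_Mf_ne {x : Option (Co Q w v) → ℂ} (h : Supp x) (e : Fin Q.ne) (s : Bool)
    {k : Fin Q.n} (hk : src Q e (!s) ≠ k) (y : Bas Q v → ℂ) : res k (Mf x e s *ᵥ y) = 0 := by
  funext p
  simp only [res_apply, Matrix.mulVec, dotProduct, Matrix.of_apply]
  refine Finset.sum_eq_zero fun b _ => ?_
  rw [h.arr (fun h' => hk h'.2), zero_mul]

theorem col_eq {x : Option (Co Q w v) → ℂ} (h : Supp x) (k : Fin Q.n) (q : Fin (w k)) :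
    (fun a => x (some ((none, true), .inl a, .inr ⟨k, q⟩))) =
      exz k (Im x k *ᵥ Pi.single q 1) := by
  refine res_ext fun l => ?_
  rw [res_exz]
  funext p
  by_cases hl : l = k
  · subst hl
    simp [res_apply, Im]
  · rw [Pi.single_eq_of_ne hl]
    exact h.i_ne (a := ⟨l, p⟩) (b := ⟨k, q⟩) hl

theorem stable_iff {x : Option (Co Q w v) → ℂ} (h : Supp x) :
    Stable Q w v x ↔ ∀ S : ∀ k, Submodule ℂ (Fin (v k) → ℂ), (∀ k y, Im x k *ᵥ y ∈ S k) →
      (∀ j k a y, y ∈ S j → Xm x j k a *ᵥ y ∈ S k) → ∀ k, S k = ⊤ := by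
  constructor
  · intro hs S hI hx k
    have h1 := hs (⨅ k, (S k).comap (res k)) (fun b => by
      obtain ⟨j, q⟩ := b
      rw [col_eq h]
      simp only [Submodule.mem_iInf, Submodule.mem_comap, res_exz]
      intro l
      by_cases hl : l = j
      · subst hl
        rw [Pi.single_eq_same]
        exact hI _ _
      · rw [Pi.single_eq_of_ne hl]
        exact zero_mem _) (fun e s y hy => by
      simp only [Submodule.mem_iInf, Submodule.mem_comap] at hy ⊢
      intro l
      by_cases hl : src Q e (!s) = l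
      · rw [res_Mf h (src Q e s) l ⟨(e, s), rfl, hl⟩]
        exact hx _ _ _ _ (hy _)
      · rw [res_Mf_ne h e s hl]
        exact zero_mem _)
    rw [eq_top_iff]
    intro y _
    have h2 : exz k y ∈ ⨅ k, (S k).comap (res k) := by rw [h1]; trivial
    simp only [Submodule.mem_iInf, Submodule.mem_comap] at h2
    have h3 := h2 k
    rwa [res_exz, Pi.single_eq_same] at h3
  · intro hs S hI hx
    have h1 := hs (fun k => S.comap (exz k)) (fun k y => by
      rw [← Finset.univ_sum_single y, Matrix.mulVec_sum]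
      refine Submodule.sum_mem _ fun q _ => ?_
      rw [show Pi.single q (y q) = y q • (Pi.single q 1 : Fin (w k) → ℂ) by
        rw [← Pi.single_smul, smul_eq_mul, mul_one], Matrix.mulVec_smul]
      refine Submodule.smul_mem _ _ ?_
      rw [Submodule.mem_comap, ← col_eq h]
      exact hI _) (fun j k a y hy => by
      have h2 := hx a.1.1 a.1.2 _ hy
      rw [Submodule.mem_comap]
      convert h2 using 1
      refine res_ext fun l => ?_
      rw [res_exz]
      by_cases hl : l = k
      · subst hl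
        rw [res_Mf h j l a, res_exz, Pi.single_eq_same, Pi.single_eq_same]
      · rw [Pi.single_eq_of_ne hl, res_Mf_ne h _ _ (fun h' => hl (h'.symm.trans a.2.2))])
    rw [eq_top_iff]
    intro y _
    rw [← sum_exz y]
    refine Submodule.sum_mem _ fun k _ => ?_
    have : res k y ∈ S.comap (exz k) := by rw [h1 k]; trivial
    exact this

end Pool.Agent.MP_8be872_ag.H59
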