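import Pool.Agent.MP_8be872_ag.H59.Num
import Pool.Agent.MP_8be872_ag.H86.Weyl

/-! Induction along the Weyl group orbit. -/

namespace Pool.Agent.MP_8be872_ag.H59

open Module H38 H86

variable (Q : Quiv)

/-- Source of the arrow `(e, s)` of the double quiver; its target is `src e (!s)`. -/
def src (e : Fin Q.ne) (s : Bool) : Fin Q.n := bif s then Q.tl e else Q.hd e

/-- Arrows of the double quiver from `j` to `k`. -/
abbrev AQ (j k : Fin Q.n) : Type :=
  {p : Fin Q.ne × Bool // src Q p.1 p.2 = j ∧ src Q p.1 (!p.2) = k}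

/-- Reversal of arrows. -/
def barQ (j k : Fin Q.n) (a : AQ Q j k) : AQ Q k j :=
  ⟨(a.1.1, !a.1.2), a.2.2, by rw [Bool.not_not]; exact a.2.1⟩

/-- Signs. -/
noncomputable def epsQ (j k : Fin Q.n) (a : AQ Q j k) : ℂ := bif a.1.2 then 1 else -1

theorem barQ_barQ (j k : Fin Q.n) (a : AQ Q j k) : barQ Q k j (barQ Q j k a) = a := by
  apply Subtype.ext
  simp [barQ]

theorem epsQ_ne (j k : Fin Q.n) (a : AQ Q j k) : epsQ Q j k a ≠ 0 := by
  unfold epsQ
  cases a.1.2 <;> simp

theorem form_card (a b : Fin Q.n → ℤ) :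
    form Q a b = 2 * ∑ i, a i * b i -
      ∑ j, ∑ k, (Fintype.card (AQ Q j k) : ℤ) * (a j * b k) := by
  unfold form
  congr 1
  simp only [Fintype.card_subtype, Finset.card_filter, Nat.cast_sum, Finset.sum_mul]
  symm
  calc _ = ∑ j, ∑ p : Fin Q.ne × Bool, ∑ k,
        ((if src Q p.1 p.2 = j ∧ src Q p.1 (!p.2) = k then 1 else 0 : ℕ) : ℤ) * (a j * b k) :=
        Finset.sum_congr rfl fun j _ => Finset.sum_comm
    _ = ∑ p : Fin Q.ne × Bool, ∑ j, ∑ k,
        ((if src Q p.1 p.2 = j ∧ src Q p.1 (!p.2) = k then 1 else 0 : ℕ) : ℤ) * (a j * b k) :=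
        Finset.sum_comm
    _ = ∑ p : Fin Q.ne × Bool, a (src Q p.1 p.2) * b (src Q p.1 (!p.2)) := by
        refine Finset.sum_congr rfl fun p _ => ?_
        simp [ite_and]
    _ = _ := by
        rw [Fintype.sum_prod_type]
        refine Finset.sum_congr rfl fun e _ => ?_
        simp [src, add_comm]

theorem card_loop (hQ : ∀ e, Q.hd e ≠ Q.tl e) (i : Fin Q.n) : Fintype.card (AQ Q i i) = 0 := by
  rw [Fintype.card_eq_zero_iff]
  refine ⟨fun a => ?_⟩
  obtain ⟨⟨e, s⟩, h1, h2⟩ := a
  have h := h1.trans h2.symm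
  cases s
  · exact hQ e h
  · exact hQ e h.symm

variable (w : Fin Q.n → ℕ)

/-- Twice the expected half-dimension. -/
def dq (u : Fin Q.n → ℤ) : ℤ := 2 * ∑ i, u i * w i - form Q u u

theorem pairing_sr (u : Fin Q.n → ℤ) (i : Fin Q.n) :
    pairing Q w u (sr Q i) = w i - form Q u (sr Q i) := by
  unfold pairing
  rw [form_symm Q u]
  simp [sr, Pi.single_apply]

theorem dq_add (hQ : ∀ e, Q.hd e ≠ Q.tl e) (u : Fin Q.n → ℤ) (i : Fin Q.n) (c : ℤ) :
    dq Q w (u + c • sr Q i) = dq Q w u + 2 * c * pairing Q w u (sr Q i) - 2 * c ^ 2 := by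
  unfold dq
  rw [pairing_sr, form_add_right, form_smul_right, form_symm Q _ u, form_symm Q _ (sr Q i),
    form_add_right, form_smul_right, form_add_right, form_smul_right, form_sr_self Q hQ,
    form_symm Q (sr Q i) u]
  have : ∑ k, (u + c • sr Q i) k * w k = ∑ k, u k * w k + c * w i := by
    simp [sr, Pi.single_apply, add_mul, Finset.sum_add_distrib]
  rw [this]
  ring

theorem dq_nonneg (R : SRep (barQ Q) (epsQ Q) fun k => Fin (w k) → ℂ) :
    0 ≤ dq Q w fun k => finrank ℂ (R.V k) := by
  have h := R.dim_ineq (barQ_barQ Q) (epsQ_ne Q)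
  unfold dq
  rw [form_card]
  simp only [Module.finrank_fintype_fun_eq_card, Fintype.card_fin] at h
  have h' := (Nat.cast_le (α := ℤ)).2 h
  push_cast at h'
  simp only [mul_comm (w _ : ℤ)] at h'
  linarith

theorem uniq_up (hQ : ∀ e, Q.hd e ≠ Q.tl e) {u : Fin Q.n → ℤ} (hu : Up Q w u) :
    dq Q w u = 0 ∧ ∀ v : Fin Q.n → ℕ, (fun i => (v i : ℤ)) = u →
      Uniq (barQ Q) (epsQ Q) (fun k => Fin (w k) → ℂ) v := by
  induction hu with
  | zero =>
    refine ⟨by simp [dq, form], fun v hv => ?_⟩
    have : v = 0 := funext fun i => by simpa using congrFun hv i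
    rw [this]
    exact uniq_zero
  | step u i hu hp ih =>
    obtain ⟨ih1, ih2⟩ := ih
    have h0 := up_nonneg Q w hu
    change 0 < pairing Q w u (sr Q i) at hp
    change dq Q w (u + Pi.single i (pairing Q w u (sr Q i))) = 0 ∧ ∀ v : Fin Q.n → ℕ,
      (fun i => (v i : ℤ)) = u + Pi.single i (pairing Q w u (sr Q i)) → _
    refine ⟨?_, fun v hv => ?_⟩
    · rw [single_eq, dq_add Q w hQ, ih1]
      ring
    · have hu0 : ∀ j, (((u j).toNat : ℕ) : ℤ) = u j := fun j => Int.toNat_of_nonneg (h0 j)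
      refine uniq_step (barQ_barQ Q) (epsQ_ne Q) i (card_loop Q hQ i) (fun j => (u j).toNat) v
        (fun j hj => ?_) ?_ (fun R h1 h2 => ?_) (ih2 _ (funext hu0))
      · have := congrFun hv j
        simp only [Pi.add_apply, Pi.single_eq_of_ne hj, add_zero] at this
        have := hu0 j
        omega
      · have h1 := congrFun hv i
        simp only [Pi.add_apply, Pi.single_eq_same] at h1
        rw [pairing_sr, form_card] at h1
        simp only [sr, Pi.single_apply, mul_ite, mul_one, mul_zero, Finset.sum_ite_eq',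
          Finset.mem_univ, if_true] at h1
        simp only [Module.finrank_fintype_fun_eq_card, Fintype.card_fin]
        have : ((v i + (u i).toNat : ℕ) : ℤ) =
            ((w i + ∑ j, Fintype.card (AQ Q j i) * (u j).toNat : ℕ) : ℤ) := by
          push_cast
          simp only [hu0]
          linarith
        exact_mod_cast this
      · have h3 := dq_nonneg Q w R
        have h4 : (fun k => (finrank ℂ (R.V k) : ℤ)) =
            u + ((finrank ℂ (R.V i) : ℤ) - u i) • sr Q i := by
          funext k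
          by_cases hk : k = i
          · subst hk
            simp [sr]
          · simp [sr, hk, h1 k hk, hu0]
        rw [h4, dq_add Q w hQ, ih1] at h3
        have h5 := hu0 i
        have h6 : (finrank ℂ (R.V i) : ℤ) ≤ u i := by omega
        have h7 : (finrank ℂ (R.V i) : ℤ) = u i := by nlinarith
        omega

end Pool.Agent.MP_8be872_ag.H59
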