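import Pool.Agent.MP_8be872_ag.H59.Rep

/-! The dimension inequality for stable representations. -/

namespace Pool.Agent.MP_8be872_ag.H59

open Module

set_option linter.unusedSectionVars false

variable {ι : Type} [Fintype ι] [DecidableEq ι] {A : ι → ι → Type} [∀ j k, Fintype (A j k)]
  [∀ j k, DecidableEq (A j k)]
  {bar : ∀ j k, A j k → A k j} {ε : ∀ j k, A j k → ℂ} {W : ι → Type}
  [∀ k, AddCommGroup (W k)] [∀ k, Module ℂ (W k)]

theorem span_rankOne {V : Type} [AddCommGroup V] [Module ℂ V] [FiniteDimensional ℂ V]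
    (N : Submodule ℂ (V →ₗ[ℂ] V)) (h : ∀ (v : V) (φ : V →ₗ[ℂ] ℂ), φ.smulRight v ∈ N) : N = ⊤ := by
  rw [eq_top_iff]
  intro g _
  let b := Module.finBasis ℂ V
  have : g = ∑ i, (b.coord i).smulRight (g (b i)) := by
    refine b.ext fun i => ?_
    simp [LinearMap.sum_apply, Finsupp.single_apply]
  rw [this]
  exact Submodule.sum_mem _ fun i _ => h _ _

namespace SRep

variable (R : SRep bar ε W)

/-- The gauge Lie algebra. -/
abbrev Gg : Type := ∀ k, R.V k →ₗ[ℂ] R.V k

/-- The tangent space. -/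
abbrev Tt : Type :=
  (∀ s : Σ j, Σ k, A j k, R.V s.1 →ₗ[ℂ] R.V s.2.1) × (∀ k, W k →ₗ[ℂ] R.V k) ×
    ∀ k, R.V k →ₗ[ℂ] W k

/-- The infinitesimal action. -/
noncomputable def d0 : R.Gg →ₗ[ℂ] R.Tt where
  toFun g := (fun s => g s.2.1 ∘ₗ R.x s.1 s.2.1 s.2.2 - R.x s.1 s.2.1 s.2.2 ∘ₗ g s.1,
    fun k => g k ∘ₗ R.I k, fun k => -(R.J k ∘ₗ g k))
  map_add' g g' := by
    refine Prod.ext (funext fun s => ?_) (Prod.ext (funext fun k => ?_) (funext fun k => ?_))
    · ext v
      simp
      abel
    · ext v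
      simp
    · ext v
      simp
      abel
  map_smul' c g := by
    refine Prod.ext (funext fun s => ?_) (Prod.ext (funext fun k => ?_) (funext fun k => ?_))
    · ext v
      simp [smul_sub]
    · ext v
      simp
    · ext v
      simp

/-- The component of a tangent vector at an arrow. -/
def cmp (t : R.Tt) (j k : ι) (a : A j k) : R.V j →ₗ[ℂ] R.V k := t.1 ⟨j, k, a⟩

theorem cmp_add (t t' : R.Tt) (j k : ι) (a : A j k) :
    R.cmp (t + t') j k a = R.cmp t j k a + R.cmp t' j k a := rfl

theorem cmp_smul (c : ℂ) (t : R.Tt) (j k : ι) (a : A j k) :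
    R.cmp (c • t) j k a = c • R.cmp t j k a := rfl

/-- The differential of the moment map. -/
noncomputable def d1 : R.Tt →ₗ[ℂ] R.Gg where
  toFun t := fun k => t.2.1 k ∘ₗ R.J k + R.I k ∘ₗ t.2.2 k +
    ∑ j, ∑ a : A j k, ε j k a • (R.cmp t j k a ∘ₗ R.x k j (bar j k a) +
      R.x j k a ∘ₗ R.cmp t k j (bar j k a))
  map_add' t t' := by
    funext k
    ext v
    simp only [cmp_add, Prod.snd_add, Prod.fst_add, Pi.add_apply, LinearMap.add_apply, LinearMap.comp_apply,
      map_add, LinearMap.sum_apply, LinearMap.smul_apply, smul_add, Finset.sum_add_distrib]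
    abel
  map_smul' c t := by
    funext k
    ext v
    simp only [cmp_smul, Prod.smul_snd, Prod.smul_fst, Pi.smul_apply, LinearMap.add_apply,
      LinearMap.comp_apply, map_smul, LinearMap.sum_apply, LinearMap.smul_apply, smul_add,
      Finset.smul_sum, RingHom.id_apply, Finset.sum_add_distrib, smul_comm c]

theorem d1_apply (t : R.Tt) (k : ι) (v : R.V k) :
    R.d1 t k v = t.2.1 k (R.J k v) + R.I k (t.2.2 k v) +
      ∑ j, ∑ a : A j k, ε j k a • (t.1 ⟨j, k, a⟩ (R.x k j (bar j k a) v) +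
        R.x j k a (t.1 ⟨k, j, bar j k a⟩ v)) := by
  simp only [d1, LinearMap.coe_mk, AddHom.coe_mk, LinearMap.add_apply, LinearMap.comp_apply,
    LinearMap.sum_apply, LinearMap.smul_apply]
  rfl

theorem d0_inj : Function.Injective R.d0 := by
  rw [← LinearMap.ker_eq_bot, eq_bot_iff]
  intro g hg
  have hg' : R.d0 g = 0 := hg
  have h := R.stab (fun k => LinearMap.ker (g k)) (fun k w => by
    have := congrArg (fun t : R.Tt => t.2.1 k w) hg'
    simpa [d0] using this) (fun j k a v hv => by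
    have := congrArg (fun t : R.Tt => t.1 ⟨j, k, a⟩ v) hg'
    have hv' : g j v = 0 := hv
    simpa [d0, hv'] using this)
  exact funext fun k => LinearMap.ker_eq_top.1 (h k)

theorem d1_d0 (g : R.Gg) : R.d1 (R.d0 g) = 0 := by
  funext k
  ext v
  have h1 := congrArg (g k) (R.mom k v)
  have h2 := R.mom k (g k v)
  simp only [map_add, map_sum, map_smul, map_zero] at h1
  rw [d1_apply]
  simp only [d0, LinearMap.coe_mk, AddHom.coe_mk, LinearMap.comp_apply, LinearMap.sub_apply,
    LinearMap.neg_apply, map_neg, map_sub, sub_add_sub_cancel, smul_sub, Finset.sum_sub_distrib,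
    Pi.zero_apply, LinearMap.zero_apply]
  rw [eq_neg_of_add_eq_zero_left h1, eq_neg_of_add_eq_zero_left h2]
  abel

theorem d1_single (hb : ∀ j k a, bar k j (bar j k a) = a) (j k : ι) (a : A j k)
    (y : R.V k →ₗ[ℂ] R.V j) :
    R.d1 (Pi.single (⟨k, j, bar j k a⟩ : Σ j, Σ k, A j k) y, 0, 0) =
      Pi.single j (ε k j (bar j k a) • y ∘ₗ R.x j k a) + Pi.single k (ε j k a • R.x j k a ∘ₗ y) := by
  funext l
  ext v
  rw [d1_apply]
  simp only [Pi.zero_apply, LinearMap.zero_apply, map_zero, zero_add, smul_add,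
    Finset.sum_add_distrib, Pi.add_apply, LinearMap.add_apply]
  congr 1
  · by_cases hl : l = j
    · subst hl
      rw [Finset.sum_eq_single k, Finset.sum_eq_single (bar l k a)]
      · simp [hb]
      · intro b _ hb'
        rw [Pi.single_eq_of_ne (by simpa using hb')]
        simp
      · simp
      · intro m _ hm
        refine Finset.sum_eq_zero fun b _ => ?_
        rw [Pi.single_eq_of_ne (fun h => hm (congrArg Sigma.fst h))]
        simp
      · simp
    · rw [Pi.single_eq_of_ne hl]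
      refine Finset.sum_eq_zero fun m _ => Finset.sum_eq_zero fun b _ => ?_
      rw [Pi.single_eq_of_ne (fun h => hl (congrArg (fun s : Σ j, Σ k, A j k => s.2.1) h))]
      simp
  · by_cases hl : l = k
    · subst hl
      rw [Finset.sum_eq_single j, Finset.sum_eq_single a]
      · simp
      · intro b _ hb'
        rw [Pi.single_eq_of_ne]
        · simp
        · intro h
          apply hb'
          have h' : bar j l b = bar j l a := by simpa using h
          rw [← hb j l b, h', hb]
      · simp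
      · intro m _ hm
        refine Finset.sum_eq_zero fun b _ => ?_
        rw [Pi.single_eq_of_ne (fun h => hm (congrArg (fun s : Σ j, Σ k, A j k => s.2.1) h))]
        simp
      · simp
    · rw [Pi.single_eq_of_ne hl]
      refine Finset.sum_eq_zero fun m _ => Finset.sum_eq_zero fun b _ => ?_
      rw [Pi.single_eq_of_ne (fun h => hl (congrArg Sigma.fst h))]
      simp

theorem d1_surj (hb : ∀ j k a, bar k j (bar j k a) = a) (he : ∀ j k a, ε j k a ≠ 0) :
    LinearMap.range R.d1 = ⊤ := by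
  let S : ∀ k, Submodule ℂ (R.V k) := fun k =>
    ⨅ φ : R.V k →ₗ[ℂ] ℂ, (LinearMap.range R.d1).comap
      (LinearMap.single ℂ (fun k => R.V k →ₗ[ℂ] R.V k) k ∘ₗ LinearMap.smulRightₗ φ)
  have hS : ∀ k v, v ∈ S k ↔ ∀ φ : R.V k →ₗ[ℂ] ℂ,
      (Pi.single k (φ.smulRight v) : R.Gg) ∈ LinearMap.range R.d1 := by
    intro k v
    simp only [S, Submodule.mem_iInf, Submodule.mem_comap]
    rfl
  have h := R.stab S (fun k w => (hS _ _).2 fun φ => by
    refine ⟨(0, 0, Pi.single k (φ.smulRight w)), ?_⟩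
    funext l
    ext v
    rw [d1_apply]
    by_cases hl : l = k
    · subst hl
      simp
    · simp [hl]) (fun j k a v hv => (hS _ _).2 fun φ => by
    have h1 := (hS _ _).1 hv (φ ∘ₗ R.x j k a)
    have h2 : _ ∈ LinearMap.range R.d1 := ⟨_, R.d1_single hb j k a (φ.smulRight v)⟩
    have h3 := Submodule.smul_mem _ (ε j k a)⁻¹
      (sub_mem h2 (Submodule.smul_mem _ (ε k j (bar j k a)) h1))
    convert h3 using 1
    rw [← Pi.single_smul, show (φ ∘ₗ R.x j k a).smulRight v = φ.smulRight v ∘ₗ R.x j k a from rfl,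
      add_sub_cancel_left, ← Pi.single_smul, smul_smul, inv_mul_cancel₀ (he _ _ _), one_smul]
    congr 1
    ext z
    simp)
  rw [eq_top_iff]
  intro g _
  rw [← Finset.univ_sum_single g]
  refine Submodule.sum_mem _ fun k _ => ?_
  have h4 := span_rankOne ((LinearMap.range R.d1).comap
    (LinearMap.single ℂ (fun k => R.V k →ₗ[ℂ] R.V k) k))
    fun v φ => (hS k v).1 (by rw [h k]; trivial) φ
  have : g k ∈ (LinearMap.range R.d1).comap
    (LinearMap.single ℂ (fun k => R.V k →ₗ[ℂ] R.V k) k) := by rw [h4]; trivial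
  exact this

theorem dim_ineq [∀ k, FiniteDimensional ℂ (W k)] (hb : ∀ j k a, bar k j (bar j k a) = a)
    (he : ∀ j k a, ε j k a ≠ 0) :
    2 * ∑ k, finrank ℂ (R.V k) * finrank ℂ (R.V k) ≤
      ∑ j, ∑ k, Fintype.card (A j k) * (finrank ℂ (R.V j) * finrank ℂ (R.V k)) +
        2 * ∑ k, finrank ℂ (W k) * finrank ℂ (R.V k) := by
  have h1 := LinearMap.finrank_range_add_finrank_ker R.d1
  rw [R.d1_surj hb he, finrank_top] at h1
  have h2 : LinearMap.range R.d0 ≤ LinearMap.ker R.d1 := by
    rintro _ ⟨g, rfl⟩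
    exact R.d1_d0 g
  have h3 := Submodule.finrank_mono h2
  rw [LinearMap.finrank_range_of_inj R.d0_inj] at h3
  have h4 : finrank ℂ R.Gg = ∑ k, finrank ℂ (R.V k) * finrank ℂ (R.V k) := by
    rw [Module.finrank_pi_fintype]
    simp only [Module.finrank_linearMap]
  have h5 : finrank ℂ R.Tt =
      ∑ j, ∑ k, Fintype.card (A j k) * (finrank ℂ (R.V j) * finrank ℂ (R.V k)) +
        2 * ∑ k, finrank ℂ (W k) * finrank ℂ (R.V k) := by
    rw [Module.finrank_prod, Module.finrank_prod, Module.finrank_pi_fintype,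
      Module.finrank_pi_fintype, Module.finrank_pi_fintype]
    simp only [Module.finrank_linearMap, Fintype.sum_sigma, two_mul,
      mul_comm (finrank ℂ (R.V _)) (finrank ℂ (W _))]
    congr 1
    refine Finset.sum_congr rfl fun j _ => Finset.sum_congr rfl fun k _ => ?_
    change ∑ _ : A j k, finrank ℂ (R.V j) * finrank ℂ (R.V k) = _
    simp
  omega

end SRep

end Pool.Agent.MP_8be872_ag.H59
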