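import Mathlib

/-! Stable framed representations of a double quiver, reflection at a vertex. -/

namespace Pool.Agent.MP_8be872_ag.H59

open Module

set_option linter.unusedSectionVars false

variable {ι : Type} [Fintype ι] [DecidableEq ι] {A : ι → ι → Type} [∀ j k, Fintype (A j k)]
  [∀ j k, DecidableEq (A j k)]

/-- A stable framed representation satisfying the moment map equation. -/
structure SRep (bar : ∀ j k, A j k → A k j) (ε : ∀ j k, A j k → ℂ) (W : ι → Type)
    [∀ k, AddCommGroup (W k)] [∀ k, Module ℂ (W k)] where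
  V : ι → Type
  [acg : ∀ k, AddCommGroup (V k)]
  [mod : ∀ k, Module ℂ (V k)]
  [fd : ∀ k, FiniteDimensional ℂ (V k)]
  x : ∀ j k, A j k → V j →ₗ[ℂ] V k
  I : ∀ k, W k →ₗ[ℂ] V k
  J : ∀ k, V k →ₗ[ℂ] W k
  mom : ∀ k (v : V k),
    I k (J k v) + ∑ j, ∑ a : A j k, ε j k a • x j k a (x k j (bar j k a) v) = 0
  stab : ∀ S : ∀ k, Submodule ℂ (V k), (∀ k w, I k w ∈ S k) →
    (∀ j k a v, v ∈ S j → x j k a v ∈ S k) → ∀ k, S k = ⊤

attribute [instance] SRep.acg SRep.mod SRep.fd

variable {bar : ∀ j k, A j k → A k j} {ε : ∀ j k, A j k → ℂ} {W : ι → Type}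
  [∀ k, AddCommGroup (W k)] [∀ k, Module ℂ (W k)]

/-- Morphisms. -/
structure SHom (R R' : SRep bar ε W) where
  f : ∀ k, R.V k →ₗ[ℂ] R'.V k
  hx : ∀ j k a v, f k (R.x j k a v) = R'.x j k a (f j v)
  hI : ∀ k w, f k (R.I k w) = R'.I k w
  hJ : ∀ k v, R'.J k (f k v) = R.J k v

theorem SHom.surj {R R' : SRep bar ε W} (φ : SHom R R') (k : ι) : Function.Surjective (φ.f k) := by
  rw [← LinearMap.range_eq_top]
  refine R'.stab (fun k => LinearMap.range (φ.f k)) (fun k w => ⟨_, φ.hI k w⟩) ?_ k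
  rintro j k a _ ⟨v, rfl⟩
  exact ⟨_, φ.hx j k a v⟩

theorem SHom.bij {R R' : SRep bar ε W} (φ : SHom R R') (k : ι)
    (h : finrank ℂ (R.V k) = finrank ℂ (R'.V k)) : Function.Bijective (φ.f k) :=
  ⟨(LinearMap.injective_iff_surjective_of_finrank_eq_finrank h).2 (φ.surj k), φ.surj k⟩

namespace SRep

variable (R : SRep bar ε W)

/-- The space `W_k ⊕ ⊕_(a : j → k) V_j`. -/
abbrev U (k : ι) : Type := W k × ∀ j, A j k → R.V j

/-- The map `U_k → V_k`. -/
noncomputable def β (k : ι) : R.U k →ₗ[ℂ] R.V k :=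
  (R.I k).coprod (∑ j, ∑ a : A j k, R.x j k a ∘ₗ LinearMap.proj a ∘ₗ LinearMap.proj j)

/-- The map `V_k → U_k`. -/
noncomputable def α (k : ι) : R.V k →ₗ[ℂ] R.U k :=
  (R.J k).prod (LinearMap.pi fun j => LinearMap.pi fun a => ε j k a • R.x k j (bar j k a))

theorem β_apply (k : ι) (u : R.U k) :
    R.β k u = R.I k u.1 + ∑ j, ∑ a : A j k, R.x j k a (u.2 j a) := by
  simp [β, LinearMap.sum_apply]

theorem α_fst (k : ι) (v : R.V k) : (R.α k v).1 = R.J k v := rfl

theorem α_snd (k : ι) (v : R.V k) (j : ι) (a : A j k) :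
    (R.α k v).2 j a = ε j k a • R.x k j (bar j k a) v := rfl

theorem β_α (k : ι) (v : R.V k) : R.β k (R.α k v) = 0 := by
  rw [β_apply, ← R.mom k v]
  simp [α_fst, α_snd]

/-- The inclusion of the summand of the arrow `a`. -/
noncomputable def inc (j k : ι) (a : A j k) : R.V j →ₗ[ℂ] R.U k :=
  LinearMap.inr ℂ _ _ ∘ₗ LinearMap.single ℂ (fun j => A j k → R.V j) j ∘ₗ
    LinearMap.single ℂ (fun _ => R.V j) a

theorem inc_apply (j k : ι) (a : A j k) (v : R.V j) :
    R.inc j k a v = (0, Pi.single j (Pi.single a v)) := rfl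

theorem sum_inc (k : ι) (u : R.U k) :
    u = (u.1, 0) + ∑ j, ∑ a : A j k, R.inc j k a (u.2 j a) := by
  ext1
  · simp [inc_apply, Prod.fst_sum]
  · simp only [inc_apply, Prod.snd_add, Prod.snd_sum, zero_add]
    conv_lhs => rw [← Finset.univ_sum_single u.2]
    refine Finset.sum_congr rfl fun j _ => ?_
    conv_lhs => rw [← Finset.univ_sum_single (u.2 j)]
    exact map_sum (LinearMap.single ℂ (fun j => A j k → R.V j) j) _ _

theorem lin_apply {M : Type} [AddCommGroup M] [Module ℂ M] (k : ι) (F : R.U k →ₗ[ℂ] M)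
    (u : R.U k) : F u = F (u.1, 0) + ∑ j, ∑ a : A j k, F (R.inc j k a (u.2 j a)) := by
  conv_lhs => rw [R.sum_inc k u]
  simp only [map_add, map_sum]

theorem sum_single {M : ι → Type} [∀ k, AddCommGroup (M k)] [∀ k, Module ℂ (M k)]
    {N : Type} [AddCommGroup N] [Module ℂ N] (k : ι)
    (y : ∀ j, A j k → M j →ₗ[ℂ] N) (j : ι) (a : A j k) (v : M j) :
    ∑ j', ∑ a' : A j' k, y j' a'
      ((Pi.single j (Pi.single a v) : ∀ j, A j k → M j) j' a') = y j a v := by
  rw [Finset.sum_eq_single j, Finset.sum_eq_single a]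
  · simp
  · intro b _ hb
    simp [hb]
  · simp
  · intro b _ hb
    simp [hb]
  · simp

theorem β_inc (j k : ι) (a : A j k) (v : R.V j) : R.β k (R.inc j k a v) = R.x j k a v := by
  rw [β_apply, inc_apply]
  simp only [map_zero, zero_add]
  exact sum_single k (fun j a => R.x j k a) j a v

theorem β_surj (k : ι) : Function.Surjective (R.β k) := by
  rw [← LinearMap.range_eq_top]
  refine R.stab (fun k => LinearMap.range (R.β k)) (fun k w => ⟨(w, 0), ?_⟩) ?_ k
  · simp [β_apply]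
  · intro j k a v _
    exact ⟨_, R.β_inc j k a v⟩

/-! ### Quotient by a family of subspaces killed by all maps -/

theorem x_eq_zero (hb : ∀ j k a, bar k j (bar j k a) = a) (he : ∀ j k a, ε j k a ≠ 0)
    {j : ι} {v : R.V j} (hv : R.α j v = 0) (k : ι) (a : A j k) : R.x j k a v = 0 := by
  have h := congrArg (fun u : R.U j => u.2 k (bar j k a)) hv
  simp only [α_snd, hb, Prod.snd_zero, Pi.zero_apply] at h
  exact (smul_eq_zero.1 h).resolve_left (he _ _ _)

theorem J_eq_zero {j : ι} {v : R.V j} (hv : R.α j v = 0) : R.J j v = 0 :=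
  congrArg Prod.fst hv

/-- The quotient representation. -/
noncomputable def quot (hb : ∀ j k a, bar k j (bar j k a) = a) (he : ∀ j k a, ε j k a ≠ 0)
    (K : ∀ k, Submodule ℂ (R.V k)) (hK : ∀ k, K k ≤ LinearMap.ker (R.α k)) : SRep bar ε W where
  V k := R.V k ⧸ K k
  x j k a := (K k).mkQ ∘ₗ (K j).liftQ (R.x j k a) fun v hv => R.x_eq_zero hb he (hK j hv) k a
  I k := (K k).mkQ ∘ₗ R.I k
  J k := (K k).liftQ (R.J k) fun v hv => R.J_eq_zero (hK k hv)
  mom k v := by
    obtain ⟨v, rfl⟩ := (K k).mkQ_surjective v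
    have h := congrArg (K k).mkQ (R.mom k v)
    simp only [map_add, map_sum, map_smul, map_zero] at h
    exact h
  stab S hI hx k := by
    have h := R.stab (fun k => (S k).comap (K k).mkQ) (fun k w => hI k w)
      (fun j k a v hv => hx j k a _ hv) k
    rw [eq_top_iff]
    intro v _
    obtain ⟨v, rfl⟩ := (K k).mkQ_surjective v
    have : v ∈ (S k).comap (K k).mkQ := by rw [h]; trivial
    exact this

/-! ### Extension -/

/-- The representation on `U_k / L_k`. -/
noncomputable def ext [∀ k, FiniteDimensional ℂ (W k)] (L : ∀ k, Submodule ℂ (R.U k))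
    (h1 : ∀ k, LinearMap.range (R.α k) ≤ L k) (h2 : ∀ k, L k ≤ LinearMap.ker (R.β k)) :
    SRep bar ε W where
  V k := R.U k ⧸ L k
  x j k a := (L k).mkQ ∘ₗ R.inc j k a ∘ₗ (L j).liftQ (R.β j) (h2 j)
  I k := (L k).mkQ ∘ₗ LinearMap.inl ℂ _ _
  J k := R.J k ∘ₗ (L k).liftQ (R.β k) (h2 k)
  mom k v := by
    obtain ⟨u, rfl⟩ := (L k).mkQ_surjective v
    have h := R.lin_apply k (L k).mkQ (R.α k (R.β k u))
    rw [show (L k).mkQ (R.α k (R.β k u)) = 0 from
      (Submodule.Quotient.mk_eq_zero _).2 (h1 k ⟨_, rfl⟩)] at h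
    rw [h]
    simp [α_fst, α_snd, β_inc]
  stab S hI hx k := by
    have h := R.stab (fun k => ((S k).comap (L k).mkQ).map (R.β k))
      (fun k w => ⟨(w, 0), hI k w, by simp [β_apply]⟩) (by
        rintro j k a _ ⟨u, hu, rfl⟩
        exact ⟨R.inc j k a (R.β j u), hx j k a _ hu, R.β_inc _ _ _ _⟩)
    rw [eq_top_iff]
    intro v _
    obtain ⟨u, rfl⟩ := (L k).mkQ_surjective v
    rw [R.lin_apply k (L k).mkQ u]
    refine add_mem (hI k u.1) (Submodule.sum_mem _ fun j _ => Submodule.sum_mem _ fun a _ => ?_)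
    have : u.2 j a ∈ ((S j).comap (L j).mkQ).map (R.β j) := by rw [h j]; trivial
    obtain ⟨u', hu', e⟩ := this
    rw [← e]
    exact hx j k a _ hu'

/-- A morphism to a quotient lifts to a morphism from the extension. -/
theorem lift [∀ k, FiniteDimensional ℂ (W k)] (hb : ∀ j k a, bar k j (bar j k a) = a)
    (he : ∀ j k a, ε j k a ≠ 0) (L : ∀ k, Submodule ℂ (R.U k))
    (h1 : ∀ k, LinearMap.range (R.α k) ≤ L k) (h2 : ∀ k, L k ≤ LinearMap.ker (R.β k))
    (R' : SRep bar ε W) (K : ∀ k, Submodule ℂ (R'.V k)) (hK : ∀ k, K k ≤ LinearMap.ker (R'.α k))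
    (hKL : ∀ k, K k = ⊥ ∨ L k ≤ LinearMap.range (R.α k)) (φ : SHom R (R'.quot hb he K hK)) :
    Nonempty (SHom (R.ext L h1 h2) R') := by
  let y : ∀ j k, A j k → (R'.V j ⧸ K j) →ₗ[ℂ] R'.V k := fun j k a =>
    (K j).liftQ (R'.x j k a) fun v hv => R'.x_eq_zero hb he (hK j hv) k a
  let g : ∀ k, R.V k →ₗ[ℂ] R'.V k ⧸ K k := fun k => φ.f k
  have gx : ∀ j k a v, g k (R.x j k a v) = (K k).mkQ (y j k a (g j v)) := φ.hx
  have gI : ∀ k w, g k (R.I k w) = (K k).mkQ (R'.I k w) := φ.hI
  have gJ : ∀ k v v', g k v = (K k).mkQ v' → R.J k v = R'.J k v' := fun k v v' h => by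
    have := φ.hJ k v
    rw [← this]
    change (K k).liftQ (R'.J k) _ (g k v) = _
    rw [h]
    rfl
  let F : ∀ k, R.U k →ₗ[ℂ] R'.V k := fun k =>
    (R'.I k).coprod (∑ j, ∑ a : A j k, y j k a ∘ₗ g j ∘ₗ LinearMap.proj a ∘ₗ LinearMap.proj j)
  have hF : ∀ k u, F k u = R'.I k u.1 + ∑ j, ∑ a : A j k, y j k a (g j (u.2 j a)) := by
    intro k u
    simp [F, LinearMap.sum_apply]
  have hq : ∀ k u, (K k).mkQ (F k u) = g k (R.β k u) := by
    intro k u
    rw [hF, β_apply]
    simp only [map_add, map_sum, gx, gI]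
  have hα : ∀ k v, F k (R.α k v) = 0 := by
    intro k v
    obtain ⟨v', hv'⟩ := (K k).mkQ_surjective (g k v)
    rw [hF, ← R'.mom k v', α_fst, gJ k v v' hv'.symm]
    congr 1
    refine Finset.sum_congr rfl fun j _ => Finset.sum_congr rfl fun a _ => ?_
    rw [α_snd, map_smul, map_smul, gx, ← hv']
    rfl
  have hL : ∀ k, L k ≤ LinearMap.ker (F k) := by
    intro k u hu
    rcases hKL k with h | h
    · have h3 := hq k u
      rw [show R.β k u = 0 from h2 k hu, map_zero] at h3
      have h4 : F k u ∈ K k := (Submodule.Quotient.mk_eq_zero _).1 h3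
      rw [h] at h4
      exact h4
    · obtain ⟨v, rfl⟩ := h hu
      exact hα k v
  refine ⟨⟨fun k => (L k).liftQ (F k) (hL k), ?_, ?_, ?_⟩⟩
  · intro j k a v
    obtain ⟨u, rfl⟩ := (L j).mkQ_surjective v
    change F k (R.inc j k a (R.β j u)) = R'.x j k a (F j u)
    rw [hF, inc_apply]
    simp only [map_zero, zero_add]
    refine (sum_single k (fun j a => y j k a ∘ₗ g j) j a (R.β j u)).trans ?_
    change y j k a (g j (R.β j u)) = _
    rw [← hq]
    rfl
  · intro k w
    change F k (w, 0) = _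
    simp [hF]
  · intro k v
    obtain ⟨u, rfl⟩ := (L k).mkQ_surjective v
    change R'.J k (F k u) = R.J k (R.β k u)
    exact (gJ k _ _ (hq k u).symm).symm

theorem finrank_U [∀ k, FiniteDimensional ℂ (W k)] (k : ι) :
    finrank ℂ (R.U k) = finrank ℂ (W k) + ∑ j, Fintype.card (A j k) * finrank ℂ (R.V j) := by
  rw [Module.finrank_prod, Module.finrank_pi_fintype]
  congr 1
  refine Finset.sum_congr rfl fun j _ => ?_
  rw [Module.finrank_pi_fintype]
  simp

end SRep

/-- There is a representation of dimension vector `u` mapping to all others. -/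
def Uniq (bar : ∀ j k, A j k → A k j) (ε : ∀ j k, A j k → ℂ) (W : ι → Type)
    [∀ k, AddCommGroup (W k)] [∀ k, Module ℂ (W k)] (u : ι → ℕ) : Prop :=
  ∃ R₀ : SRep bar ε W, (∀ k, finrank ℂ (R₀.V k) = u k) ∧
    ∀ R : SRep bar ε W, (∀ k, finrank ℂ (R.V k) = u k) → Nonempty (SHom R₀ R)

theorem uniq_zero : Uniq bar ε W 0 := by
  refine ⟨{ V := fun _ => PUnit
            x := fun _ _ _ => 0
            I := fun _ => 0
            J := fun _ => 0
            mom := fun _ _ => Subsingleton.elim _ _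
            stab := fun _ _ _ _ => Subsingleton.elim _ _ }, fun k => ?_, fun R hR => ?_⟩
  · exact Module.finrank_zero_of_subsingleton
  · have : ∀ k, Subsingleton (R.V k) := fun k => Module.finrank_zero_iff.1 (hR k)
    exact ⟨⟨fun _ => 0, fun _ _ _ _ => Subsingleton.elim _ _, fun _ _ => Subsingleton.elim _ _,
      fun k v => map_zero _⟩⟩

theorem quot_dim (hb : ∀ j k a, bar k j (bar j k a) = a) (he : ∀ j k a, ε j k a ≠ 0)
    (R : SRep bar ε W) (i : ι) :
    ∃ (K : ∀ k, Submodule ℂ (R.V k)) (hK : ∀ k, K k ≤ LinearMap.ker (R.α k)),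
      (∀ k, k ≠ i → K k = ⊥) ∧
      (∀ k, k ≠ i → finrank ℂ ((R.quot hb he K hK).V k) = finrank ℂ (R.V k)) ∧
      finrank ℂ ((R.quot hb he K hK).V i) = finrank ℂ (LinearMap.range (R.α i)) := by
  refine ⟨fun k => if k = i then LinearMap.ker (R.α k) else ⊥, fun k => ?_, fun k hk => if_neg hk,
    fun k hk => ?_, ?_⟩
  · dsimp only
    split_ifs
    · exact le_rfl
    · exact bot_le
  · have h := Submodule.finrank_quotient_add_finrank
      (if k = i then LinearMap.ker (R.α k) else ⊥ : Submodule ℂ (R.V k))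
    have h0 : finrank ℂ (if k = i then LinearMap.ker (R.α k) else ⊥ : Submodule ℂ (R.V k)) = 0 := by
      rw [if_neg hk, finrank_bot]
    rw [h0, add_zero] at h
    exact h
  · have h := Submodule.finrank_quotient_add_finrank
      (if i = i then LinearMap.ker (R.α i) else ⊥ : Submodule ℂ (R.V i))
    have h0 : finrank ℂ (if i = i then LinearMap.ker (R.α i) else ⊥ : Submodule ℂ (R.V i)) =
        finrank ℂ (LinearMap.ker (R.α i)) := by
      rw [if_pos rfl]
    have h1 := LinearMap.finrank_range_add_finrank_ker (R.α i)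
    change finrank ℂ (R.V i ⧸ (if i = i then LinearMap.ker (R.α i) else ⊥ : Submodule ℂ (R.V i))) = _
    omega

theorem uniq_step [∀ k, FiniteDimensional ℂ (W k)] (hb : ∀ j k a, bar k j (bar j k a) = a)
    (he : ∀ j k a, ε j k a ≠ 0) (i : ι) (hloop : Fintype.card (A i i) = 0) (u u' : ι → ℕ)
    (hu : ∀ j, j ≠ i → u' j = u j)
    (hi : u' i + u i = finrank ℂ (W i) + ∑ j, Fintype.card (A j i) * u j)
    (hN : ∀ R : SRep bar ε W, (∀ j, j ≠ i → finrank ℂ (R.V j) = u j) →
      finrank ℂ (R.V i) ≤ u i → finrank ℂ (R.V i) = u i)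
    (h : Uniq bar ε W u) : Uniq bar ε W u' := by
  obtain ⟨R₀, hd, hR₀⟩ := h
  have hU : ∀ R : SRep bar ε W, (∀ j, j ≠ i → finrank ℂ (R.V j) = u j) →
      finrank ℂ (R.U i) = u' i + u i := by
    intro R hR
    rw [hi, R.finrank_U]
    congr 1
    refine Finset.sum_congr rfl fun j _ => ?_
    by_cases hj : j = i
    · subst hj
      simp [hloop]
    · rw [hR j hj]
  have hαβ : ∀ (R : SRep bar ε W) k, LinearMap.range (R.α k) ≤ LinearMap.ker (R.β k) := by
    rintro R k _ ⟨v, rfl⟩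
    exact R.β_α k v
  have hker : ∀ (R : SRep bar ε W) k,
      finrank ℂ (R.V k) + finrank ℂ (LinearMap.ker (R.β k)) = finrank ℂ (R.U k) := by
    intro R k
    have h1 := LinearMap.finrank_range_add_finrank_ker (R.β k)
    rwa [LinearMap.range_eq_top.2 (R.β_surj k), finrank_top] at h1
  have hr : finrank ℂ (LinearMap.range (R₀.α i)) = u i := by
    obtain ⟨K, hK, -, h2, h3⟩ := quot_dim hb he R₀ i
    rw [← h3]
    refine hN _ (fun j hj => (h2 j hj).trans (hd j)) ?_
    rw [h3, ← hd i]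
    exact LinearMap.finrank_range_le _
  let L : ∀ k, Submodule ℂ (R₀.U k) := fun k =>
    if k = i then LinearMap.range (R₀.α k) else LinearMap.ker (R₀.β k)
  have h1 : ∀ k, LinearMap.range (R₀.α k) ≤ L k := by
    intro k
    dsimp only [L]
    split_ifs
    · exact le_rfl
    · exact hαβ R₀ k
  have h2 : ∀ k, L k ≤ LinearMap.ker (R₀.β k) := by
    intro k
    dsimp only [L]
    split_ifs
    · exact hαβ R₀ k
    · exact le_rfl
  refine ⟨R₀.ext L h1 h2, fun k => ?_, fun R' hR' => ?_⟩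
  · have h3 := Submodule.finrank_quotient_add_finrank (L k)
    change finrank ℂ (R₀.U k ⧸ L k) = _
    by_cases hk : k = i
    · subst hk
      have h4 : finrank ℂ (L k) = u k := by
        rw [← hr, show L k = LinearMap.range (R₀.α k) from if_pos rfl]
      have h5 := hU R₀ fun j _ => hd j
      omega
    · have h4 : finrank ℂ (L k) = finrank ℂ (LinearMap.ker (R₀.β k)) := by
        rw [show L k = LinearMap.ker (R₀.β k) from if_neg hk]
      have h5 := hker R₀ k
      have h6 := hd k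
      have h7 := hu k hk
      omega
  · obtain ⟨K, hK, k1, k2, k3⟩ := quot_dim hb he R' i
    have hd' : ∀ j, j ≠ i → finrank ℂ (R'.V j) = u j := fun j hj => (hR' j).trans (hu j hj)
    have k4 : finrank ℂ ((R'.quot hb he K hK).V i) = u i := by
      refine hN _ (fun j hj => (k2 j hj).trans (hd' j hj)) ?_
      have h3 := Submodule.finrank_mono (hαβ R' i)
      have h4 := hker R' i
      have h5 := hU R' hd'
      have h6 := hR' i
      omega
    obtain ⟨φ⟩ := hR₀ (R'.quot hb he K hK) fun k => by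
      by_cases hk : k = i
      · subst hk
        exact k4
      · exact (k2 k hk).trans (hd' k hk)
    refine R₀.lift hb he L h1 h2 R' K hK (fun k => ?_) φ
    by_cases hk : k = i
    · right
      dsimp only [L]
      rw [if_pos hk]
    · exact Or.inl (k1 k hk)

end Pool.Agent.MP_8be872_ag.H59
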